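import Pool.Agent.H44.GT.Targets

set_option autoImplicit false

namespace Pool.Agent.H46.GD

open Pool.Agent.H44.DU
open MeasureTheory Filter Topology

variable {n : ℕ} {S : Surf n}

theorem xi_lim {U : Ultrafilter ℕ} {s : ℕ → ℝ} {t : ℝ} (hs : Tendsto s U (𝓝 t)) (z : ℂ) :
    Tendsto (fun j => xi (s j) z) U (𝓝 (xi t z)) := by
  unfold xi
  exact tendsto_const_nhds.sub (hs.mul_const _)

theorem xr_lim {U : Ultrafilter ℕ} {s : ℕ → ℝ} {t : ℝ} (hs : Tendsto s U (𝓝 t)) (i : Fin n) :
    Tendsto (fun j => S.xr (s j) i) U (𝓝 (S.xr t i)) := by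
  unfold Surf.xr
  exact (xi_lim hs _).max ((xi_lim hs _).max (xi_lim hs _))

theorem xl_le_xi (t : ℝ) (i : Fin n) (k : Fin 3) : S.xl t i ≤ xi t (S.v i k) := by
  unfold Surf.xl
  fin_cases k
  · exact min_le_left _ _
  · exact (min_le_right _ _).trans (min_le_left _ _)
  · exact (min_le_right _ _).trans (min_le_right _ _)

theorem xi_le_xr (t : ℝ) (i : Fin n) (k : Fin 3) : xi t (S.v i k) ≤ S.xr t i := by
  unfold Surf.xr
  fin_cases k
  · exact le_max_left _ _
  · exact (le_max_left _ _).trans (le_max_right _ _)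
  · exact (le_max_right _ _).trans (le_max_right _ _)

theorem nm_zero {t : ℝ} {p : Fin n → ℝ → ℝ} (h : S.NM t p) (i : Fin n) :
    0 ≤ p i (S.xr t i) := by
  have h1 : p i (S.xl t i) = 0 := h.left i _ le_rfl
  rw [← h1]
  exact h.im.mono i ((xl_le_xi t i 0).trans (xi_le_xr t i 0))

theorem am_div {t μ M : ℝ} {p : Fin n → ℝ → ℝ} (h : S.NM t p) (hμ : 0 < μ)
    (hM : ∀ i, p i (S.xr t i) ≤ M * μ) : S.AM t 0 M (fun i x => p i x / μ) := by
  refine ⟨?_, ?_, ?_, ?_, ?_⟩
  · intro i x y hxy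
    exact div_le_div_of_nonneg_right (h.im.mono i hxy) hμ.le
  · intro i x hx
    show p i x / μ = 0
    rw [h.left i x hx, zero_div]
  · intro i x hx
    show p i x / μ = p i (S.xr t i) / μ
    rw [h.right i x hx]
  · intro i
    show p i (S.xr t i) / μ ≤ M
    rw [div_le_iff₀ hμ]
    exact hM i
  · intro r x y h1 h2 h3
    have e := h.im.glue r x y h1 h2 h3
    have : (p (S.gl r).1 (S.mv t r y) / μ - p (S.gl r).1 (S.mv t r x) / μ) -
        (p r.1 y / μ - p r.1 x / μ) = 0 := by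
      rw [← sub_div, ← sub_div, e, sub_self]
    show |(p (S.gl r).1 (S.mv t r y) / μ - p (S.gl r).1 (S.mv t r x) / μ) -
        (p r.1 y / μ - p r.1 x / μ)| ≤ 0
    rw [this, abs_zero]

theorem cc_lim {U : Ultrafilter ℕ} {s : ℕ → ℝ} {t : ℝ} (hs : Tendsto s U (𝓝 t))
    {p : ℕ → Fin n → ℝ → ℝ} {q : Fin n → ℝ → ℝ}
    (h : ∀ (i : Fin n) (x : ℝ) (y : ℕ → ℝ), Tendsto y U (𝓝 x) →
        Tendsto (fun j => p j i (y j)) U (𝓝 (q i x))) (r : Side n) :
    Tendsto (fun j => S.cc (s j) (p j) r) U (𝓝 (S.cc t q r)) := by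
  unfold Surf.cc
  exact (h r.1 _ _ (xi_lim hs _)).sub (h r.1 _ _ (xi_lim hs _))

theorem om_lim {U : Ultrafilter ℕ} {c : ℕ → Side n → ℝ} {d : Side n → ℝ}
    (h : ∀ r, Tendsto (fun j => c j r) U (𝓝 (d r))) (e : Side n → ℝ) :
    Tendsto (fun j => Surf.Om (c j) e) U (𝓝 (Surf.Om d e)) := by
  unfold Surf.Om
  refine tendsto_finsetSum _ fun i _ => ?_
  exact ((h _).mul_const _).sub ((h _).mul_const _)

theorem om_div (c e : Side n → ℝ) (μ : ℝ) :
    Surf.Om (fun r => c r / μ) e = Surf.Om c e / μ := by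
  unfold Surf.Om
  rw [Finset.sum_div]
  refine Finset.sum_congr rfl fun i _ => ?_
  ring

theorem cc_div (t μ : ℝ) (p : Fin n → ℝ → ℝ) :
    S.cc t (fun i x => p i x / μ) = fun r => S.cc t p r / μ := by
  funext r
  unfold Surf.cc
  rw [sub_div]

theorem pf_U_CNT (hLIM : M_LIM) (hUE : U_UE) (hW : W_1) (hPOS : M_POS) (hCOC : M_COC) :
    U_CNT := by
  classical
  intro n S hconn hnt hcone hgen hn β cb q hKMβ hNMq hOrthq hnz K P hK i
  -- the measure q has full support
  have hqinc : S.SInc β q := by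
    refine hPOS n S β q hKMβ.ok.gd hKMβ.tmin hNMq.im ?_
    obtain ⟨s, hs⟩ := hnz
    unfold Surf.cc at hs
    have m1 : S.xl β s.1 ≤ xi β (S.Q s) := xl_le_xi β s.1 _
    have m2 : xi β (S.Q s) ≤ S.xr β s.1 := xi_le_xr β s.1 _
    have m3 : S.xl β s.1 ≤ xi β (S.P s) := xl_le_xi β s.1 _
    have m4 : xi β (S.P s) ≤ S.xr β s.1 := xi_le_xr β s.1 _
    rcases le_total (xi β (S.Q s)) (xi β (S.P s)) with h | h
    · exact ⟨s.1, _, _, m1, h, m4, lt_of_le_of_ne (hNMq.im.mono s.1 h)
        (fun e => hs (by rw [e, sub_self]))⟩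
    · exact ⟨s.1, _, _, m3, h, m2, lt_of_le_of_ne (hNMq.im.mono s.1 h)
        (fun e => hs (by rw [e, sub_self]))⟩
  set mm : ℝ → ℝ := fun τ => ∑ i, P τ i (S.xr τ i) with hmm
  have hmass : ∀ τ ∈ K, ∀ i, P τ i (S.xr τ i) ≤ mm τ := by
    intro τ hτ i
    exact Finset.single_le_sum (f := fun i => P τ i (S.xr τ i))
      (fun i _ => nm_zero (hK τ hτ).2.2.2.1 i) (Finset.mem_univ i)
  rintro ⟨t, x⟩ ⟨htK, _⟩
  have htK' : t ∈ K := htK
  obtain ⟨htβ, ⟨c, hKM⟩, hNoLD, hNM, hOrth, hOm⟩ := hK t htK'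
  unfold ContinuousWithinAt
  rw [tendsto_iff_seq_tendsto]
  intro z hz
  rw [tendsto_iff_ultrafilter]
  intro U hU
  have hzU : Tendsto z U (𝓝[K ×ˢ Set.univ] (t, x)) := hz.mono_left hU
  have hzmem : ∀ᶠ j in (U : Filter ℕ), (z j).1 ∈ K := by
    have := hzU (self_mem_nhdsWithin (a := (t, x)) (s := K ×ˢ Set.univ))
    filter_upwards [this] with j hj
    exact hj.1
  have hz1 : Tendsto (fun j => (z j).1) U (𝓝 t) :=
    (continuous_fst.tendsto (t, x)).comp (hzU.mono_right nhdsWithin_le_nhds)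
  have hz2 : Tendsto (fun j => (z j).2) U (𝓝 x) :=
    (continuous_snd.tendsto (t, x)).comp (hzU.mono_right nhdsWithin_le_nhds)
  show Tendsto (fun j => P (z j).1 i (z j).2) U (𝓝 (P t i x))
  -- general replacement of a sequence
  have rep : ∀ good : ℝ → Prop, good t → (∀ᶠ j in (U : Filter ℕ), good (z j).1) →
      ∃ s : ℕ → ℝ, (∀ j, s j ∈ K ∧ good (s j)) ∧ Tendsto s U (𝓝 t) ∧
        ∀ᶠ j in (U : Filter ℕ), s j = (z j).1 := by
    intro good hg hgz
    refine ⟨fun j => if (z j).1 ∈ K ∧ good (z j).1 then (z j).1 else t, ?_, ?_, ?_⟩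
    · intro j
      by_cases h : (z j).1 ∈ K ∧ good (z j).1
      · simp only [h, and_self, if_true]
      · simp only [h, if_false]
        exact ⟨htK', hg⟩
    · refine hz1.congr' ?_
      filter_upwards [hzmem, hgz] with j h1 h2
      simp only [h1, h2, and_self, if_true]
    · filter_upwards [hzmem, hgz] with j h1 h2
      simp only [h1, h2, and_self, if_true]
  by_cases hM : ∃ M, ∀ᶠ j in (U : Filter ℕ), mm (z j).1 ≤ M
  · obtain ⟨M₀, hM₀⟩ := hM
    set M : ℝ := max (max M₀ (mm t)) 1 with hMdef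
    have hMpos : 0 < M := lt_of_lt_of_le one_pos (le_max_right _ _)
    obtain ⟨s, hs, hst, hsz⟩ := rep (fun τ => mm τ ≤ M)
      ((le_max_right _ _).trans (le_max_left _ _))
      (hM₀.mono fun j hj => hj.trans ((le_max_left _ _).trans (le_max_left _ _)))
    have hAM : ∀ j, S.AM (s j) ((fun _ : ℕ => (0 : ℝ)) j) M (P (s j)) := by
      intro j
      have h1 := am_div (μ := 1) (M := M) (hK (s j) (hs j).1).2.2.2.1 one_pos
        (fun i => by rw [mul_one]; exact (hmass (s j) (hs j).1 i).trans (hs j).2)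
      simpa using h1
    obtain ⟨q', hNM', hmass', hlim⟩ := hLIM n S t c M hKM hMpos U s (fun _ => 0)
      (fun j => P (s j)) hst tendsto_const_nhds hAM
    have hcc := fun r => cc_lim (S := S) hst hlim r
    have hOrth' : S.Orth (S.cc t q') := by
      unfold Surf.Orth
      have h1 : Tendsto (fun j => ∑ r : Side n, Real.log (S.a r) * S.cc (s j) (P (s j)) r) U
          (𝓝 (∑ r : Side n, Real.log (S.a r) * S.cc t q' r)) :=
        tendsto_finsetSum _ fun r _ => (hcc r).const_mul _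
      have h2 : (fun j => ∑ r : Side n, Real.log (S.a r) * S.cc (s j) (P (s j)) r) =
          fun _ => 0 := by
        funext j
        exact (hK (s j) (hs j).1).2.2.2.2.1
      rw [h2] at h1
      exact tendsto_nhds_unique h1 tendsto_const_nhds
    have hOm' : Surf.Om (S.cc t q') (S.cc β q) = 1 := by
      have h1 := om_lim hcc (S.cc β q)
      have h2 : (fun j => Surf.Om (fun r => S.cc (s j) (P (s j)) r) (S.cc β q)) =
          fun _ => 1 := by
        funext j
        exact (hK (s j) (hs j).1).2.2.2.2.2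
      rw [h2] at h1
      exact tendsto_nhds_unique h1 tendsto_const_nhds
    have heq : q' = P t := hUE n S hconn hnt hcone hgen t c q' (P t) (S.cc β q) hn hKM hNoLD
      hNM' hNM hOrth' hOrth (hCOC n S β q hNMq.im) hOrthq hOm' hOm
    rw [heq] at hlim
    refine (hlim i x _ hz2).congr' ?_
    filter_upwards [hsz] with j hj
    rw [hj]
  · exfalso
    have hbig : ∀ M : ℝ, ∀ᶠ j in (U : Filter ℕ), M < mm (z j).1 := by
      intro M
      have h1 : ¬ ∀ᶠ j in (U : Filter ℕ), mm (z j).1 ≤ M := fun h => hM ⟨M, h⟩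
      filter_upwards [Ultrafilter.eventually_not.2 h1] with j hj
      exact lt_of_not_ge hj
    obtain ⟨s, hs, hst, hsz⟩ := rep (fun _ => True) trivial
      (Eventually.of_forall fun _ => trivial)
    have hbig' : ∀ M : ℝ, ∀ᶠ j in (U : Filter ℕ), M < mm (s j) := by
      intro M
      filter_upwards [hbig M, hsz] with j h1 h2
      rw [h2]
      exact h1
    have htop : Tendsto (fun j => max (mm (s j)) 1) U atTop := by
      rw [tendsto_atTop]
      intro M
      filter_upwards [hbig' M] with j hj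
      exact hj.le.trans (le_max_left _ _)
    have hμ : ∀ j, 0 < max (mm (s j)) 1 := fun j => lt_of_lt_of_le one_pos (le_max_right _ _)
    obtain ⟨q', hNM', hmass', hlim⟩ := hLIM n S t c 1 hKM one_pos U s (fun _ => 0)
      (fun j i x => P (s j) i x / max (mm (s j)) 1) hst tendsto_const_nhds (by
        intro j
        exact am_div (hK (s j) (hs j).1).2.2.2.1 (hμ j)
          (fun i => by rw [one_mul]; exact (hmass (s j) (hs j).1 i).trans (le_max_left _ _)))
    have hcc := fun r => cc_lim (S := S)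
      (p := fun j i x => P (s j) i x / max (mm (s j)) 1) hst hlim r
    have hOm0 : Surf.Om (S.cc t q') (S.cc β q) = 0 := by
      have h1 := om_lim hcc (S.cc β q)
      have h2 : (fun j => Surf.Om (fun r => S.cc (s j)
          (fun i x => P (s j) i x / max (mm (s j)) 1) r) (S.cc β q)) =
          fun j => 1 / max (mm (s j)) 1 := by
        funext j
        rw [cc_div, om_div, (hK (s j) (hs j).1).2.2.2.2.2]
      rw [h2] at h1
      have h3 : Tendsto (fun j => 1 / max (mm (s j)) 1) U (𝓝 0) := by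
        simp only [one_div]
        exact htop.inv_tendsto_atTop
      exact tendsto_nhds_unique h1 h3
    have hsum : ∑ i, q' i (S.xr t i) = 1 := by
      have h1 : Tendsto (fun j => ∑ i, P (s j) i (S.xr (s j) i) / max (mm (s j)) 1) U
          (𝓝 (∑ i, q' i (S.xr t i))) :=
        tendsto_finsetSum _ fun i _ => hlim i _ _ (xr_lim hst i)
      have h2 : Tendsto (fun j => ∑ i, P (s j) i (S.xr (s j) i) / max (mm (s j)) 1) U
          (𝓝 1) := by
        refine tendsto_const_nhds.congr' ?_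
        filter_upwards [hbig' 1] with j hj
        rw [← Finset.sum_div, max_eq_left hj.le]
        exact (div_self (ne_of_gt (lt_trans one_pos hj))).symm
      exact tendsto_nhds_unique h1 h2
    have hex : ∃ i', 0 < q' i' (S.xr t i') := by
      by_contra hcon
      have : ∑ i, q' i (S.xr t i) ≤ 0 := Finset.sum_nonpos fun i _ =>
        not_lt.1 fun h => hcon ⟨i, h⟩
      linarith
    obtain ⟨i', hi'⟩ := hex
    have hinc : S.SInc t q' := by
      refine hPOS n S t q' hKM.ok.gd hKM.tmin hNM'.im ⟨i', S.xl t i', S.xr t i', le_rfl,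
        (xl_le_xi t i' 0).trans (xi_le_xr t i' 0), le_rfl, ?_⟩
      rw [hNM'.left i' _ le_rfl]
      exact hi'
    have := hW n S t β q' q hn htβ hNM'.im hNMq.im hinc hqinc
    linarith

end Pool.Agent.H46.GD
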